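import Pool.Agent.Helper4.TK.StD
import Pool.Agent.Helper16.W5.M_Trm

/-!
# Project TK, module Itr: iteration of the leading forms

Adapted from `Pool/Agent/Helper94/TH/M_Itr.lean`.
-/

set_option autoImplicit false

namespace Pool.Agent.Helper51.TK

open Pool.Agent.Helper4.TK
open Pool.Agent.Helper14.CV (Homog EqC act Tl)
open Pool.Agent.Helper28.WK (Tw evw)
open Pool.Agent.Helper14.W5 (tr5 Fn5 Tm opL op5 mulL mulT sclL Gd Wd5 Lw dX dY rY5 S5Trm S5Low0)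

private theorem hTrm5 : S5Trm := Pool.Agent.Helper16.W5.hTrm

section lists

variable {q q' : ℕ}

private theorem opL_nil : (opL [] : Module.End (ZMod 5) (Fn5 q q')) = 0 := rfl

private theorem opL_cons (t : Tm) (L : List Tm) : (opL (t :: L) : Module.End (ZMod 5) (Fn5 q q')) =
    ((t.1 : ℤ) : ZMod 5) • op5 t.2.1 t.2.2.1 t.2.2.2.1 t.2.2.2.2 + opL L := by
  unfold opL
  rw [List.map_cons, List.sum_cons]

private theorem opL_append (L L' : List Tm) :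
    (opL (L ++ L') : Module.End (ZMod 5) (Fn5 q q')) = opL L + opL L' := by
  unfold opL
  rw [List.map_append, List.sum_append]

private theorem opL_scl (n : ℤ) (L : List Tm) :
    (opL (sclL n L) : Module.End (ZMod 5) (Fn5 q q')) = ((n : ℤ) : ZMod 5) • opL L := by
  induction L with
  | nil => rw [show sclL n [] = [] from rfl, opL_nil, smul_zero]
  | cons t L ih =>
    rw [show sclL n (t :: L) = (n * t.1, t.2) :: sclL n L from rfl, opL_cons, opL_cons, ih, smul_add, smul_smul]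
    push_cast
    rfl

end lists

private theorem ndvd {a : ℤ} (h : a % 5 ≠ 0) : ¬ 5 ∣ a := fun h' => h (Int.emod_eq_zero_of_dvd h')

private theorem op5_mul {r s : ℕ} {t t' : Tm} (h : Gd t) (h' : Gd t') :
    (op5 t.2.1 t.2.2.1 t.2.2.2.1 t.2.2.2.2 * op5 t'.2.1 t'.2.2.1 t'.2.2.2.1 t'.2.2.2.2 :
      Module.End (ZMod 5) (Fn5 (5 ^ r) (5 ^ s))) =
    op5 (mulT t t').2.1 (mulT t t').2.2.1 (mulT t t').2.2.2.1 (mulT t t').2.2.2.2 := by
  apply LinearMap.ext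
  intro F
  exact (hTrm5 (ZMod 5) r s F).1 t.2.1 t.2.2.1 t.2.2.2.1 t.2.2.2.2 t'.2.1 t'.2.2.1 t'.2.2.2.1 t'.2.2.2.2
    (ndvd h.1) (ndvd h.2) (ndvd h'.1) (ndvd h'.2)

private theorem opL_mulT {r s : ℕ} {t : Tm} (h : Gd t) (L' : List Tm) (h' : ∀ t' ∈ L', Gd t') :
    (opL (L'.map fun t' => mulT t t') : Module.End (ZMod 5) (Fn5 (5 ^ r) (5 ^ s))) =
    (((t.1 : ℤ) : ZMod 5) • op5 t.2.1 t.2.2.1 t.2.2.2.1 t.2.2.2.2) * opL L' := by
  induction L' with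
  | nil => rw [List.map_nil, opL_nil, mul_zero]
  | cons a L' ih =>
    rw [List.map_cons, opL_cons, opL_cons, ih (fun t' ht' => h' t' (List.mem_cons_of_mem _ ht')), mul_add,
      smul_mul_smul_comm, op5_mul h (h' a List.mem_cons_self)]
    have e : (((mulT t a).1 : ℤ) : ZMod 5) = ((t.1 : ℤ) : ZMod 5) * ((a.1 : ℤ) : ZMod 5) := by
      unfold mulT
      push_cast
      rfl
    rw [e]

private theorem opL_mul {r s : ℕ} (L L' : List Tm) (h : ∀ t ∈ L, Gd t) (h' : ∀ t' ∈ L', Gd t') :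
    (opL (mulL L L') : Module.End (ZMod 5) (Fn5 (5 ^ r) (5 ^ s))) = opL L * opL L' := by
  induction L with
  | nil => exact (zero_mul _).symm
  | cons a L ih =>
    have e : mulL (a :: L) L' = (L'.map fun t' => mulT a t') ++ mulL L L' := rfl
    rw [e, opL_append, opL_mulT (h a List.mem_cons_self) L' h', ih (fun t ht => h t (List.mem_cons_of_mem _ ht)),
      opL_cons, add_mul]

private theorem gdT2 : ∀ i f : Fin 3, ∀ t ∈ T2K i f, Gd t := by decide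

private theorem gdT7 : ∀ i f : Fin 3, ∀ t ∈ T7K i f, Gd t := by decide

private theorem gdT13 : ∀ i f : Fin 3, ∀ t ∈ T13K i f, Gd t := by decide

private theorem mm_apply {r s : ℕ} (A B : Fin 3 → Fin 3 → List Tm) (hA : ∀ i f, ∀ t ∈ A i f, Gd t)
    (hB : ∀ i f, ∀ t ∈ B i f, Gd t) (F : Fin 3 → Fn5 (5 ^ r) (5 ^ s)) (i : Fin 3) :
    ∑ g : Fin 3, opL (A i g) (∑ f : Fin 3, opL (B g f) (F f)) = ∑ f : Fin 3, opL (mm3 A B i f) (F f) := by
  simp only [Fin.sum_univ_three, mm3, opL_append, opL_mul _ _ (hA _ _) (hB _ _), LinearMap.add_apply,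
    Module.End.mul_apply, map_add]
  abel

private theorem op5_one {r s : ℕ} (F : Fn5 (5 ^ r) (5 ^ s)) : op5 1 0 0 1 F = F :=
  (hTrm5 (ZMod 5) r s F).2.1

private theorem id_apply' {r s : ℕ} (c : ℤ) (F : Fin 3 → Fn5 (5 ^ r) (5 ^ s)) (i : Fin 3) :
    ∑ f : Fin 3, opL (id3 c i f) (F f) = ((c : ℤ) : ZMod 5) • F i := by
  rw [Finset.sum_eq_single i]
  · rw [show id3 c i i = [(c, 1, 0, 0, 1)] from if_pos rfl, opL_cons, opL_nil, add_zero, LinearMap.smul_apply,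
      op5_one]
  · intro f _ hf
    rw [show id3 c i f = [] from if_neg (Ne.symm hf), opL_nil, LinearMap.zero_apply]
  · intro h
    exact absurd (Finset.mem_univ i) h

section

variable {r s : ℕ}

/-- the three functions -/
private noncomputable def P (r s : ℕ) (G : ℤ → ℤ → ZMod 5) (f : Fin 3) : Fn5 (5 ^ r) (5 ^ s) := pfK G f

private theorem P_add (G H : ℤ → ℤ → ZMod 5) (f : Fin 3) : P r s (G + H) f = P r s G f + P r s H f := by
  funext x y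
  simp only [P, pfK, edgeK, Pi.add_apply]
  ring

private theorem P_sub (G H : ℤ → ℤ → ZMod 5) (f : Fin 3) : P r s (G - H) f = P r s G f - P r s H f := by
  funext x y
  simp only [P, pfK, edgeK, Pi.sub_apply]
  ring

private theorem P_smul (n : ℤ) (G : ℤ → ℤ → ZMod 5) (f : Fin 3) :
    P r s (n • G) f = ((n : ℤ) : ZMod 5) • P r s G f := by
  funext x y
  simp only [P, pfK, edgeK, Pi.smul_apply, smul_eq_mul, zsmul_eq_mul]
  ring

private theorem symT (hb : THkB) (l : ℕ) (hl : l.Prime) (h5 : l ≠ 5) (h3 : l ≠ 3)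
    {G : ℤ → ℤ → ZMod 5} (hG : SymK 5 r (s + 1) G) : SymK 5 r (s + 1) (Tl l (5 ^ r) G) :=
  (hb (ZMod 5) _ r (s + 1) l G hl h5 h3 hG).1

private theorem sym2 (hb : THkB) {G : ℤ → ℤ → ZMod 5} (hG : SymK 5 r (s + 1) G) :
    SymK 5 r (s + 1) (Tl 2 (5 ^ r) G) := symT hb 2 (by norm_num) (by norm_num) (by norm_num) hG

private theorem sym7 (hb : THkB) {G : ℤ → ℤ → ZMod 5} (hG : SymK 5 r (s + 1) G) :
    SymK 5 r (s + 1) (Tl 7 (5 ^ r) G) := symT hb 7 (by norm_num) (by norm_num) (by norm_num) hG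

private theorem sym11 (hb : THkB) {G : ℤ → ℤ → ZMod 5} (hG : SymK 5 r (s + 1) G) :
    SymK 5 r (s + 1) (Tl 11 (5 ^ r) G) := symT hb 11 (by norm_num) (by norm_num) (by norm_num) hG

private theorem sym13 (hb : THkB) {G : ℤ → ℤ → ZMod 5} (hG : SymK 5 r (s + 1) G) :
    SymK 5 r (s + 1) (Tl 13 (5 ^ r) G) := symT hb 13 (by norm_num) (by norm_num) (by norm_num) hG

private theorem sym19 (hb : THkB) {G : ℤ → ℤ → ZMod 5} (hG : SymK 5 r (s + 1) G) :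
    SymK 5 r (s + 1) (Tl 19 (5 ^ r) G) := symT hb 19 (by norm_num) (by norm_num) (by norm_num) hG

private theorem sym29 (hb : THkB) {G : ℤ → ℤ → ZMod 5} (hG : SymK 5 r (s + 1) G) :
    SymK 5 r (s + 1) (Tl 29 (5 ^ r) G) := symT hb 29 (by norm_num) (by norm_num) (by norm_num) hG

private theorem PL {l : ℕ} {T : Fin 3 → Fin 3 → List Tm} (hT : THkL l T) {G : ℤ → ℤ → ZMod 5}
    (hG : SymK 5 r (s + 1) G) (i : Fin 3) :
    P r s (Tl l (5 ^ r) G) i = ∑ f : Fin 3, opL (T i f) (P r s G f) := hT r s G hG i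

private theorem P22 (hb : THkB) (h2 : THkL 2 T2K) {G : ℤ → ℤ → ZMod 5} (hG : SymK 5 r (s + 1) G)
    (i : Fin 3) : P r s (Tl 2 (5 ^ r) (Tl 2 (5 ^ r) G)) i =
      ∑ f : Fin 3, opL (mm3 T2K T2K i f) (P r s G f) := by
  rw [PL h2 (sym2 hb hG) i, ← mm_apply T2K T2K gdT2 gdT2 (P r s G) i]
  simp_rw [PL h2 hG]

private theorem P27 (hb : THkB) (h2 : THkL 2 T2K) (h7 : THkL 7 T7K) {G : ℤ → ℤ → ZMod 5}
    (hG : SymK 5 r (s + 1) G) (i : Fin 3) : P r s (Tl 2 (5 ^ r) (Tl 7 (5 ^ r) G)) i =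
      ∑ f : Fin 3, opL (mm3 T2K T7K i f) (P r s G f) := by
  rw [PL h2 (sym7 hb hG) i, ← mm_apply T2K T7K gdT2 gdT7 (P r s G) i]
  simp_rw [PL h7 hG]

private theorem P77 (hb : THkB) (h7 : THkL 7 T7K) {G : ℤ → ℤ → ZMod 5} (hG : SymK 5 r (s + 1) G)
    (i : Fin 3) : P r s (Tl 7 (5 ^ r) (Tl 7 (5 ^ r) G)) i =
      ∑ f : Fin 3, opL (mm3 T7K T7K i f) (P r s G f) := by
  rw [PL h7 (sym7 hb hG) i, ← mm_apply T7K T7K gdT7 gdT7 (P r s G) i]
  simp_rw [PL h7 hG]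

private theorem P213 (hb : THkB) (h2 : THkL 2 T2K) (h13 : THkL 13 T13K) {G : ℤ → ℤ → ZMod 5}
    (hG : SymK 5 r (s + 1) G) (i : Fin 3) : P r s (Tl 2 (5 ^ r) (Tl 13 (5 ^ r) G)) i =
      ∑ f : Fin 3, opL (mm3 T2K T13K i f) (P r s G f) := by
  rw [PL h2 (sym13 hb hG) i, ← mm_apply T2K T13K gdT2 gdT13 (P r s G) i]
  simp_rw [PL h13 hG]

private theorem symU (hb : THkB) {G : ℤ → ℤ → ZMod 5} (hG : SymK 5 r (s + 1) G) :
    SymK 5 r (s + 1) (UoK (5 ^ r) G) :=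
  SymK.add (SymK.add (SymK.smul _ (sym11 hb hG)) (SymK.smul _ (sym19 hb hG))) (SymK.smul _ hG)

private theorem symV (hb : THkB) {G : ℤ → ℤ → ZMod 5} (hG : SymK 5 r (s + 1) G) :
    SymK 5 r (s + 1) (VoK (5 ^ r) G) :=
  SymK.add (SymK.add (SymK.add (SymK.add (SymK.add (SymK.smul _ (sym2 hb (sym7 hb hG)))
    (SymK.smul _ (sym7 hb (sym7 hb hG)))) (SymK.smul _ (sym2 hb (sym13 hb hG))))
    (SymK.smul _ (sym19 hb hG))) (SymK.smul _ (sym29 hb hG))) (SymK.smul _ hG)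

private theorem PU (h11 : THkL 11 T11K) (h19 : THkL 19 T19K) {G : ℤ → ℤ → ZMod 5}
    (hG : SymK 5 r (s + 1) G) (i : Fin 3) :
    P r s (UoK (5 ^ r) G) i = ∑ f : Fin 3, opL (ULK i f) (P r s G f) := by
  have e := id_apply' 4 (P r s G) i
  have e1 : P r s (UoK (5 ^ r) G) i = ((3 : ℤ) : ZMod 5) • P r s (Tl 11 (5 ^ r) G) i +
      ((2 : ℤ) : ZMod 5) • P r s (Tl 19 (5 ^ r) G) i + ((4 : ℤ) : ZMod 5) • P r s G i := by
    unfold UoK
    rw [P_add, P_add, P_smul, P_smul, P_smul]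
  rw [e1, PL h11 hG i, PL h19 hG i]
  simp only [ULK, opL_append, opL_scl, LinearMap.add_apply, LinearMap.smul_apply, Finset.sum_add_distrib,
    ← Finset.smul_sum]
  rw [e]

private theorem PV (hb : THkB) (h2 : THkL 2 T2K) (h7 : THkL 7 T7K) (h13 : THkL 13 T13K)
    (h19 : THkL 19 T19K) (h29 : THkL 29 T29K) {G : ℤ → ℤ → ZMod 5} (hG : SymK 5 r (s + 1) G) (i : Fin 3) :
    P r s (VoK (5 ^ r) G) i = ∑ f : Fin 3, opL (VLK i f) (P r s G f) := by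
  have e := id_apply' 3 (P r s G) i
  have e1 : P r s (VoK (5 ^ r) G) i = ((2 : ℤ) : ZMod 5) • P r s (Tl 2 (5 ^ r) (Tl 7 (5 ^ r) G)) i +
      ((2 : ℤ) : ZMod 5) • P r s (Tl 7 (5 ^ r) (Tl 7 (5 ^ r) G)) i +
      ((3 : ℤ) : ZMod 5) • P r s (Tl 2 (5 ^ r) (Tl 13 (5 ^ r) G)) i +
      ((3 : ℤ) : ZMod 5) • P r s (Tl 19 (5 ^ r) G) i + ((3 : ℤ) : ZMod 5) • P r s (Tl 29 (5 ^ r) G) i +
      ((3 : ℤ) : ZMod 5) • P r s G i := by
    unfold VoK
    rw [P_add, P_add, P_add, P_add, P_add, P_smul, P_smul, P_smul, P_smul, P_smul, P_smul]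
  rw [e1, P27 hb h2 h7 hG i, P77 hb h7 hG i, P213 hb h2 h13 hG i, PL h19 hG i, PL h29 hG i]
  simp only [VLK, opL_append, opL_scl, LinearMap.add_apply, LinearMap.smul_apply, Finset.sum_add_distrib,
    ← Finset.smul_sum]
  rw [e]

private theorem PC (hb : THkB) (h2 : THkL 2 T2K) {G : ℤ → ℤ → ZMod 5} (hG : SymK 5 r (s + 1) G) :
    P r s (Tl 2 (5 ^ r) (Tl 2 (5 ^ r) G) + (3 : ℤ) • Tl 2 (5 ^ r) G + (2 : ℤ) • G) 0 =
      ∑ f : Fin 3, opL (OCK f) (P r s G f) := by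
  have e := id_apply' 2 (P r s G) 0
  rw [P_add, P_add, P_smul, P_smul, P22 hb h2 hG 0, PL h2 hG 0]
  simp only [OCK, opL_append, opL_scl, LinearMap.add_apply, LinearMap.smul_apply, Finset.sum_add_distrib,
    ← Finset.smul_sum]
  rw [e]

private theorem PD (h2 : THkL 2 T2K) (h11 : THkL 11 T11K) (h13 : THkL 13 T13K)
    {G : ℤ → ℤ → ZMod 5} (hG : SymK 5 r (s + 1) G) :
    P r s ((4 : ℤ) • Tl 11 (5 ^ r) G + (4 : ℤ) • Tl 13 (5 ^ r) G + (3 : ℤ) • Tl 2 (5 ^ r) G + (2 : ℤ) • G) 0 =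
      ∑ f : Fin 3, opL (ODK f) (P r s G f) := by
  have e := id_apply' 2 (P r s G) 0
  rw [P_add, P_add, P_add, P_smul, P_smul, P_smul, P_smul, PL h11 hG 0, PL h13 hG 0, PL h2 hG 0]
  simp only [ODK, opL_append, opL_scl, LinearMap.add_apply, LinearMap.smul_apply, Finset.sum_add_distrib,
    ← Finset.smul_sum]
  rw [e]

private theorem PB (h2 : THkL 2 T2K) {G : ℤ → ℤ → ZMod 5} (hG : SymK 5 r (s + 1) G) :
    P r s (Tl 2 (5 ^ r) G - (3 : ℤ) • G) 0 = ∑ f : Fin 3, opL (OBK f) (P r s G f) := by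
  have e := id_apply' (-3) (P r s G) 0
  rw [P_sub, P_smul, PL h2 hG 0]
  simp only [OBK, opL_append, LinearMap.add_apply, Finset.sum_add_distrib]
  rw [e]
  push_cast
  rw [neg_smul]
  abel

private theorem lw_pow (hl : S5Low0) {O : Module.End (ZMod 5) (Fn5 (5 ^ r) (5 ^ s))} {k : ℤ} (hO : Lw O k) (n : ℕ) :
    Lw (O ^ n) (k * n) := by
  obtain ⟨hm, -, -, -, -, h1, -⟩ := hl r s
  induction n with
  | zero => simpa using h1
  | succ n ih =>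
    rw [pow_succ]
    have := hm _ _ _ _ ih hO
    rwa [show k * n + k = k * (n + 1 : ℕ) by push_cast; ring] at this

private theorem lw_Qo (hl : S5Low0) : Lw (QoK : Module.End (ZMod 5) (Fn5 (5 ^ r) (5 ^ s))) 2 := by
  obtain ⟨hm, -, hc, -, -, -, hx, hy, -⟩ := hl r s
  have h1 := hm _ _ _ _ hx hy
  norm_num at h1
  exact h1

private theorem lw_Lo (hl : S5Low0) : Lw (LoK : Module.End (ZMod 5) (Fn5 (5 ^ r) (5 ^ s))) 6 := by
  obtain ⟨hm, ha, hc, -, -, -, hx, hy, -⟩ := hl r s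
  have x2 := lw_pow hl hx 2
  have y2 := lw_pow hl hy 2
  norm_num at x2 y2
  have s2 := lw_pow hl (ha _ _ _ x2 y2) 2
  norm_num at s2
  have h := hm _ _ _ _ (hm _ _ _ _ hx hy) s2
  norm_num at h
  exact h

private theorem lw_Mc0 (hl : S5Low0) : Lw (Mc0 : Module.End (ZMod 5) (Fn5 (5 ^ r) (5 ^ s))) 2 := by
  obtain ⟨hm, ha, hc, -, -, -, hx, hy, -⟩ := hl r s
  have x2 := lw_pow hl hx 2
  have xy := hm _ _ _ _ hx hy
  norm_num at x2 xy
  exact hc _ 3 _ (ha _ _ _ x2 xy)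

private theorem lw_Mc1 (hl : S5Low0) : Lw (Mc1 : Module.End (ZMod 5) (Fn5 (5 ^ r) (5 ^ s))) 2 := by
  obtain ⟨-, ha, hc, -, -, -, hx, hy, -⟩ := hl r s
  have x2 := lw_pow hl hx 2
  have y2 := lw_pow hl hy 2
  norm_num at x2 y2
  exact ha _ _ _ x2 y2

private theorem lw_Mc2 (hl : S5Low0) : Lw (Mc2 : Module.End (ZMod 5) (Fn5 (5 ^ r) (5 ^ s))) 2 := by
  obtain ⟨hm, ha, hc, -, -, -, hx, hy, -⟩ := hl r s
  have xy := hm _ _ _ _ hx hy
  norm_num at xy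
  exact hc _ 4 _ xy

private theorem lw_Md0 (hl : S5Low0) : Lw (Md0 : Module.End (ZMod 5) (Fn5 (5 ^ r) (5 ^ s))) 4 := by
  obtain ⟨hm, ha, hc, -, -, -, hx, hy, -⟩ := hl r s
  have x2 := lw_pow hl hx 2
  have y2 := lw_pow hl hy 2
  have x3 := lw_pow hl hx 3
  have y3 := lw_pow hl hy 3
  have h1 := hm _ _ _ _ x3 hy
  have h2 := hc _ 4 _ (hm _ _ _ _ hx y3)
  have h3 := hc _ 4 _ (hm _ _ _ _ x2 y2)
  norm_num at h1 h2 h3
  exact ha _ _ _ (ha _ _ _ h1 h2) h3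

private theorem lw_Md2 (hl : S5Low0) : Lw (Md2 : Module.End (ZMod 5) (Fn5 (5 ^ r) (5 ^ s))) 4 := by
  obtain ⟨hm, ha, hc, -, -, -, hx, hy, -⟩ := hl r s
  have x2 := lw_pow hl hx 2
  have y2 := lw_pow hl hy 2
  have h3 := hc _ 2 _ (hm _ _ _ _ x2 y2)
  norm_num at h3
  exact h3

private theorem stepL (hl : S5Low0) {O : Module.End (ZMod 5) (Fn5 (5 ^ r) (5 ^ s))} {k e : ℤ} (hO : Lw O k)
    {F H F' : Fn5 (5 ^ r) (5 ^ s)} (hF : F ∈ Wd5 e) (hH : F - H ∈ Wd5 (e - 1)) (hF' : F' - O F ∈ Wd5 (e - k - 1)) :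
    F' ∈ Wd5 (e - k) ∧ F' - O H ∈ Wd5 (e - k - 1) := by
  have hmono := (hl r s).2.2.2.2.1
  have h1 : O F ∈ Wd5 (e - k) := hO e F hF
  have h2 : O (F - H) ∈ Wd5 (e - k - 1) := by
    have := hO (e - 1) _ hH
    rwa [show e - 1 - k = e - k - 1 by ring] at this
  constructor
  · have h3 := Submodule.add_mem _ (hmono _ _ (by linarith) hF') h1
    rwa [sub_add_cancel] at h3
  · have h3 := Submodule.add_mem _ hF' h2
    rwa [map_sub, sub_add_sub_cancel] at h3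

/-- the state -/
private def St (r s : ℕ) (e : ℤ) (G : ℤ → ℤ → ZMod 5) (H : Fin 3 → Fn5 (5 ^ r) (5 ^ s)) : Prop :=
  SymK 5 r (s + 1) G ∧ ∀ f : Fin 3, P r s G f ∈ Wd5 e ∧ P r s G f - H f ∈ Wd5 (e - 1)

private theorem stU (hr : TRel) (hb : THkB) (h11 : THkL 11 T11K) (h19 : THkL 19 T19K) (hl : S5Low0) (hu : TLdU)
    {e : ℤ} {G : ℤ → ℤ → ZMod 5} {H : Fin 3 → Fn5 (5 ^ r) (5 ^ s)} (h : St r s e G H) :
    St r s (e - 2) (UoK (5 ^ r) G) (fun f => QoK (H f)) := by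
  obtain ⟨hG, hF⟩ := h
  have hR : RelK (P r s G) := hr (ZMod 5) _ r s G hG
  refine ⟨symU hb hG, fun f => ?_⟩
  have l1 := hu r s e (P r s G) hR (fun i => (hF i).1) f
  rw [← PU h11 h19 hG f, show e - 3 = e - 2 - 1 by ring] at l1
  exact stepL hl (lw_Qo hl) (hF f).1 (hF f).2 l1

private theorem stV (hr : TRel) (hb : THkB) (h2 : THkL 2 T2K) (h7 : THkL 7 T7K) (h13 : THkL 13 T13K)
    (h19 : THkL 19 T19K) (h29 : THkL 29 T29K) (hl : S5Low0) (hv : TLdV)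
    {e : ℤ} {G : ℤ → ℤ → ZMod 5} {H : Fin 3 → Fn5 (5 ^ r) (5 ^ s)} (h : St r s e G H) :
    St r s (e - 6) (VoK (5 ^ r) G) (fun f => LoK (H f)) := by
  obtain ⟨hG, hF⟩ := h
  have hR : RelK (P r s G) := hr (ZMod 5) _ r s G hG
  refine ⟨symV hb hG, fun f => ?_⟩
  have l1 := hv r s e (P r s G) hR (fun i => (hF i).1) f
  rw [← PV hb h2 h7 h13 h19 h29 hG f, show e - 7 = e - 6 - 1 by ring] at l1
  exact stepL hl (lw_Lo hl) (hF f).1 (hF f).2 l1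

private theorem itU (hr : TRel) (hb : THkB) (h11 : THkL 11 T11K) (h19 : THkL 19 T19K) (hl : S5Low0) (hu : TLdU)
    {e : ℤ} {G : ℤ → ℤ → ZMod 5} {H : Fin 3 → Fn5 (5 ^ r) (5 ^ s)} (h : St r s e G H) (i : ℕ) :
    St r s (e - 2 * i) ((UoK (5 ^ r))^[i] G)
      (fun f => (QoK ^ i : Module.End (ZMod 5) (Fn5 (5 ^ r) (5 ^ s))) (H f)) := by
  induction i with
  | zero => simpa using h
  | succ i ih =>
    have h4 := stU hr hb h11 h19 hl hu ih
    have hp : (QoK ^ (i + 1) : Module.End (ZMod 5) (Fn5 (5 ^ r) (5 ^ s))) = QoK * QoK ^ i := pow_succ' _ _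
    have e2 : e - 2 * ((i + 1 : ℕ) : ℤ) = e - 2 * i - 2 := by push_cast; ring
    rw [Function.iterate_succ_apply', hp, e2]
    exact h4

private theorem itV (hr : TRel) (hb : THkB) (h2 : THkL 2 T2K) (h7 : THkL 7 T7K) (h13 : THkL 13 T13K)
    (h19 : THkL 19 T19K) (h29 : THkL 29 T29K) (hl : S5Low0) (hv : TLdV)
    {e : ℤ} {G : ℤ → ℤ → ZMod 5} {H : Fin 3 → Fn5 (5 ^ r) (5 ^ s)} (h : St r s e G H) (j : ℕ) :
    St r s (e - 6 * j) ((VoK (5 ^ r))^[j] G)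
      (fun f => (LoK ^ j : Module.End (ZMod 5) (Fn5 (5 ^ r) (5 ^ s))) (H f)) := by
  induction j with
  | zero => simpa using h
  | succ j ih =>
    have h4 := stV hr hb h2 h7 h13 h19 h29 hl hv ih
    have hp : (LoK ^ (j + 1) : Module.End (ZMod 5) (Fn5 (5 ^ r) (5 ^ s))) = LoK * LoK ^ j := pow_succ' _ _
    have e2 : e - 6 * ((j + 1 : ℕ) : ℤ) = e - 6 * j - 6 := by push_cast; ring
    rw [Function.iterate_succ_apply', hp, e2]
    exact h4

private theorem P_zero (G : ℤ → ℤ → ZMod 5) : P r s G 0 0 0 = G 1 0 - G 0 1 := by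
  have hY : rY5 0 (0 : ZMod (5 ^ r)) (0 : ZMod (5 ^ s)) = 0 := by
    unfold rY5
    simp
  have hy : yK (0 : ZMod (5 ^ r)) (0 : ZMod (5 ^ s)) = 0 := by
    unfold yK
    rw [hY, if_pos (dvd_zero _)]
  have hX : (((0 : ZMod (5 ^ r)).val : ℕ) : ℤ) = 0 := by simp
  unfold P pfK edgeK
  rw [hy, hX]
  simp [eK]

end

/-- **ITR.** -/
theorem hItr (hr : TRel) (hb : THkB) (h2 : THkL 2 T2K) (h7 : THkL 7 T7K) (h11 : THkL 11 T11K)
    (h13 : THkL 13 T13K) (h19 : THkL 19 T19K) (h29 : THkL 29 T29K) (hl : S5Low0) (hu : TLdU) (hv : TLdV)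
    (ho : TOmB) (hc : TOmC) (hd : TOmD) : TItr := by
  intro r s G d hG hF0 i j
  have hmono := (hl r s).2.2.2.2.1
  have hz : ∀ F : Fn5 (5 ^ r) (5 ^ s), F ∈ Wd5 (-1) → F = 0 :=
    (hl r s).2.2.2.2.2.2.2.2.2.2.2.2.2
  have h0 : St r s (d : ℤ) G (P r s G) := by
    refine ⟨hG, fun f => ?_⟩
    rw [sub_self]
    exact ⟨hF0 f, Submodule.zero_mem _⟩
  have hK := itU hr hb h11 h19 hl hu (itV hr hb h2 h7 h13 h19 h29 hl hv h0 j) i
  set K : ℤ → ℤ → ZMod 5 := (UoK (5 ^ r))^[i] ((VoK (5 ^ r))^[j] G) with hKd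
  obtain ⟨kG, kF⟩ := hK
  have kR : RelK (P r s K) := hr (ZMod 5) _ r s K kG
  have ev2 : evK (5 ^ r) G 2 i j = P r s K 0 0 0 := by
    rw [P_zero]
    rfl
  have ev3 : (d : ℤ) - 6 * j - 2 * i ≤ 0 → evK (5 ^ r) G 3 i j = -(P r s K 2 0 0) := by
    intro h4
    have e1 : evK (5 ^ r) G 3 i j = P r s (Tl 2 (5 ^ r) K - (3 : ℤ) • K) 0 0 0 := by
      rw [P_zero]
      rfl
    rw [e1, PB h2 kG]
    exact ho r s (P r s K) (fun f => hmono _ _ h4 (kF f).1)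
  have ev0 : (d : ℤ) - 6 * j - 2 * i ≤ 2 →
      evK (5 ^ r) G 0 i j = Mc0 (P r s K 0) 0 0 + Mc1 (P r s K 1) 0 0 + Mc2 (P r s K 2) 0 0 := by
    intro h4
    have e1 : evK (5 ^ r) G 0 i j =
        P r s (Tl 2 (5 ^ r) (Tl 2 (5 ^ r) K) + (3 : ℤ) • Tl 2 (5 ^ r) K + (2 : ℤ) • K) 0 0 0 := by
      rw [P_zero]
      rfl
    rw [e1, PC hb h2 kG]
    exact hc r s (P r s K) kR (fun f => hmono _ _ h4 (kF f).1)
  have ev1 : (d : ℤ) - 6 * j - 2 * i ≤ 4 →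
      evK (5 ^ r) G 1 i j = Md0 (P r s K 0) 0 0 + Md2 (P r s K 2) 0 0 := by
    intro h4
    have e1 : evK (5 ^ r) G 1 i j = P r s ((4 : ℤ) • Tl 11 (5 ^ r) K + (4 : ℤ) • Tl 13 (5 ^ r) K +
        (3 : ℤ) • Tl 2 (5 ^ r) K + (2 : ℤ) • K) 0 0 0 := by
      rw [P_zero]
      rfl
    rw [e1, PD h2 h11 h13 kG]
    exact hd r s (P r s K) kR (fun f => hmono _ _ h4 (kF f).1)
  refine ⟨fun hlt => ?_, fun heq => ?_, fun hlt => ?_, fun heq => ?_, fun hlt => ?_, fun heq => ?_⟩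
  · have hlt' : (d : ℤ) < 2 * i + 6 * j := by exact_mod_cast hlt
    have h1 := hz _ (hmono _ (-1) (by linarith) (kF 0).1)
    have h3 := hz _ (hmono _ (-1) (by linarith) (kF 2).1)
    rw [ev2, ev3 (by linarith), h1, h3]
    exact ⟨rfl, neg_zero⟩
  · have heq' : (2 * i + 6 * j : ℤ) = d := by exact_mod_cast heq
    have h1 := hz _ (hmono _ (-1) (by linarith) (kF 0).2)
    have h3 := hz _ (hmono _ (-1) (by linarith) (kF 2).2)
    rw [ev2, ev3 (by linarith), sub_eq_zero.1 h1, sub_eq_zero.1 h3]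
    exact ⟨rfl, rfl⟩
  · have hlt' : (d : ℤ) < 2 * i + 6 * j + 2 := by exact_mod_cast hlt
    have h1 := hz _ (hmono _ (-1) (by linarith) (lw_Mc0 hl _ _ (kF 0).1))
    have h3 := hz _ (hmono _ (-1) (by linarith) (lw_Mc1 hl _ _ (kF 1).1))
    have h4 := hz _ (hmono _ (-1) (by linarith) (lw_Mc2 hl _ _ (kF 2).1))
    rw [ev0 (by linarith), h1, h3, h4]
    show (0 : ZMod 5) + 0 + 0 = 0
    rw [add_zero, add_zero]
  · have heq' : (2 * i + 6 * j + 2 : ℤ) = d := by exact_mod_cast heq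
    have h1 := hz _ (hmono _ (-1) (by linarith) (lw_Mc0 hl _ _ (kF 0).2))
    have h3 := hz _ (hmono _ (-1) (by linarith) (lw_Mc1 hl _ _ (kF 1).2))
    have h4 := hz _ (hmono _ (-1) (by linarith) (lw_Mc2 hl _ _ (kF 2).2))
    rw [map_sub] at h1 h3 h4
    rw [ev0 (by linarith), sub_eq_zero.1 h1, sub_eq_zero.1 h3, sub_eq_zero.1 h4]
    rfl
  · have hlt' : (d : ℤ) < 2 * i + 6 * j + 4 := by exact_mod_cast hlt
    have h1 := hz _ (hmono _ (-1) (by linarith) (lw_Md0 hl _ _ (kF 0).1))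
    have h3 := hz _ (hmono _ (-1) (by linarith) (lw_Md2 hl _ _ (kF 2).1))
    rw [ev1 (by linarith), h1, h3]
    exact add_zero _
  · have heq' : (2 * i + 6 * j + 4 : ℤ) = d := by exact_mod_cast heq
    have h1 := hz _ (hmono _ (-1) (by linarith) (lw_Md0 hl _ _ (kF 0).2))
    have h3 := hz _ (hmono _ (-1) (by linarith) (lw_Md2 hl _ _ (kF 2).2))
    rw [map_sub] at h1 h3
    rw [ev1 (by linarith), sub_eq_zero.1 h1, sub_eq_zero.1 h3]
    rfl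

end Pool.Agent.Helper51.TK
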